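import Pool.Agent.Helper96.EL.Goals
import Mathlib.NumberTheory.Height.MvPolynomial

/-! # EL: the height of a sum (packet HGT) -/

set_option autoImplicit false

universe u

open NumberField Height MvPolynomial

namespace Pool.Agent.Helper85.EL

open Pool.Agent.Helper96.EL

/-- binary quartic forms -/
noncomputable def quart {k : Type u} [Field k] (c : Fin 5 → k) : MvPolynomial (Fin 2) k :=
  ∑ i : Fin 5, C (c i) * (X 0 ^ (i : ℕ) * X 1 ^ (4 - (i : ℕ)))

theorem quart_hom {k : Type u} [Field k] (c : Fin 5 → k) : (quart c).IsHomogeneous 4 := by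
  unfold quart
  refine IsHomogeneous.sum _ _ _ fun i _ => ?_
  refine IsHomogeneous.C_mul ?_ _
  have h := (isHomogeneous_X_pow (R := k) (0 : Fin 2) (i : ℕ)).mul
    (isHomogeneous_X_pow (R := k) (1 : Fin 2) (4 - (i : ℕ)))
  have h4 : (i : ℕ) + (4 - (i : ℕ)) = 4 := by have := i.2; omega
  rwa [h4] at h

theorem quart_eval {k : Type u} [Field k] (c : Fin 5 → k) (x : k) :
    eval ![x, 1] (quart c) = ∑ i : Fin 5, c i * x ^ (i : ℕ) := by
  unfold quart
  rw [map_sum]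
  refine Finset.sum_congr rfl fun i _ => ?_
  simp

theorem quartH {k : Type u} [Field k] [NumberField k] {ι : Type} [Finite ι]
    (c : ι → Fin 5 → k) : ∃ B : ℝ, ∀ x : k,
    logHeight (fun j => ∑ i : Fin 5, c j i * x ^ (i : ℕ)) ≤ B + 4 * logHeight₁ x := by
  obtain ⟨B, hB⟩ := logHeight_eval_le' (p := fun j => quart (c j)) (N := 4)
    (fun j => quart_hom (c j))
  refine ⟨B, fun x => ?_⟩
  have h := hB ![x, 1]
  simp only [quart_eval] at h
  rw [logHeight₁_eq_logHeight]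
  exact_mod_cast h

theorem uH {k : Type u} [Field k] [NumberField k] (W : WeierstrassCurve.Affine k) :
    ∃ B : ℝ, ∀ x y : k, y ^ 2 = psi W x → logHeight ![1, x, x ^ 2, y] ≤ B + 2 * logHeight₁ x := by
  obtain ⟨B, hB⟩ := quartH (k := k)
    (![![1, 0, 0, 0, 0], ![0, 0, 1, 0, 0], ![0, 0, 0, 0, 1],
      ![W.b₆, 2 * W.b₄, W.b₂, 4, 0]] : Fin 4 → Fin 5 → k)
  refine ⟨B / 2, fun x y h => ?_⟩
  have h1 := hB x
  have h2 : (fun j => ∑ i : Fin 5, (![![1, 0, 0, 0, 0], ![0, 0, 1, 0, 0], ![0, 0, 0, 0, 1],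
      ![W.b₆, 2 * W.b₄, W.b₂, 4, 0]] : Fin 4 → Fin 5 → k) j i * x ^ (i : ℕ)) =
      ![1, x, x ^ 2, y] ^ 2 := by
    funext j
    fin_cases j
    · simp [Fin.sum_univ_five]
    · simp [Fin.sum_univ_five]
    · simp [Fin.sum_univ_five]
      ring
    · simp [Fin.sum_univ_five, h, psi]
      ring
  rw [h2, logHeight_pow] at h1
  push_cast at h1
  linarith

theorem addH {k : Type u} [Field k] [NumberField k] (W : WeierstrassCurve.Affine k) :
    ∃ B : ℝ, ∀ x₁ y₁ x₂ y₂ : k, y₁ ^ 2 = psi W x₁ → y₂ ^ 2 = psi W x₂ →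
      logHeight ![AA W x₁ x₂ - y₁ * y₂, 2 * (x₁ - x₂) ^ 2]
        ≤ B + 2 * logHeight₁ x₁ + 2 * logHeight₁ x₂ := by
  obtain ⟨B, hB⟩ := uH W
  obtain ⟨A, hA⟩ : ∃ A : Fin 2 × (Fin 4 × Fin 4) → k, A = fun j =>
    (![![![W.b₆, W.b₄, 0, 0], ![W.b₄, W.b₂, 2, 0], ![0, 2, 0, 0], ![0, 0, 0, -1]],
      ![![0, 0, 2, 0], ![0, -4, 0, 0], ![2, 0, 0, 0], ![0, 0, 0, 0]]] :
        Fin 2 → Fin 4 → Fin 4 → k) j.1 j.2.1 j.2.2 := ⟨_, rfl⟩
  refine ⟨totalWeight k * Real.log (Nat.card (Fin 4 × Fin 4)) + logHeight A + 2 * B,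
    fun x₁ y₁ x₂ y₂ h1 h2 => ?_⟩
  have h3 := logHeight_linearMap_apply_le A
    (fun a : Fin 4 × Fin 4 => ![1, x₁, x₁ ^ 2, y₁] a.1 * ![1, x₂, x₂ ^ 2, y₂] a.2)
  have n1 : (![1, x₁, x₁ ^ 2, y₁] : Fin 4 → k) ≠ 0 := by
    intro h
    have := congrFun h 0
    simp at this
  have n2 : (![1, x₂, x₂ ^ 2, y₂] : Fin 4 → k) ≠ 0 := by
    intro h
    have := congrFun h 0
    simp at this
  rw [logHeight_fun_mul_eq n1 n2] at h3
  have h4 : (fun j => ∑ i : Fin 4 × Fin 4, A (j, i) *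
      (![1, x₁, x₁ ^ 2, y₁] i.1 * ![1, x₂, x₂ ^ 2, y₂] i.2)) =
      ![AA W x₁ x₂ - y₁ * y₂, 2 * (x₁ - x₂) ^ 2] := by
    funext j
    rw [Fintype.sum_prod_type, hA]
    fin_cases j
    · simp [Fin.sum_univ_four, AA]
      ring
    · simp [Fin.sum_univ_four]
      ring
  rw [h4] at h3
  have h5 := hB x₁ y₁ h1
  have h6 := hB x₂ y₂ h2
  linarith

theorem dblH {k : Type u} [Field k] [NumberField k] (W : WeierstrassCurve.Affine k) :
    ∃ B : ℝ, ∀ x : k, logHeight ![phi W x, psi W x] ≤ B + 4 * logHeight₁ x := by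
  obtain ⟨B, hB⟩ := quartH (k := k)
    (![![-W.b₈, -(2 * W.b₆), -W.b₄, 0, 1], ![W.b₆, 2 * W.b₄, W.b₂, 4, 0]] :
      Fin 2 → Fin 5 → k)
  refine ⟨B, fun x => ?_⟩
  have h1 := hB x
  have h2 : (fun j => ∑ i : Fin 5, (![![-W.b₈, -(2 * W.b₆), -W.b₄, 0, 1],
      ![W.b₆, 2 * W.b₄, W.b₂, 4, 0]] : Fin 2 → Fin 5 → k) j i * x ^ (i : ℕ)) =
      ![phi W x, psi W x] := by
    funext j
    fin_cases j
    · simp [Fin.sum_univ_five, phi]
      ring
    · simp [Fin.sum_univ_five, psi]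
      ring
  rw [h2] at h1
  exact h1

theorem hx_nonneg {k : Type u} [Field k] [NumberField k] {W : WeierstrassCurve.Affine k}
    (P : W.Point) : 0 ≤ hx P := zero_le_logHeight₁ _

theorem hx_zero {k : Type u} [Field k] [NumberField k] {W : WeierstrassCurve.Affine k} :
    hx (0 : W.Point) = 0 := by
  unfold hx
  rw [xv_zero, logHeight₁_zero]

theorem hgt : HGT.{u} := by
  intro k _ _ _ W
  obtain ⟨B1, h1⟩ := addH W
  obtain ⟨B2, h2⟩ := dblH W
  refine ⟨|B1| + |B2|, by positivity, fun P Q => ?_⟩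
  have a1 := le_abs_self B1
  have a2 := le_abs_self B2
  have a3 := abs_nonneg B1
  have a4 := abs_nonneg B2
  have p1 := hx_nonneg P
  have p2 := hx_nonneg Q
  by_cases hP : P = 0
  · rw [hP, zero_add, hx_zero]
    linarith
  by_cases hQ : Q = 0
  · rw [hQ, add_zero, hx_zero]
    linarith
  by_cases hxx : xv P = xv Q
  · rcases eq_or_eq_neg_of_xv hP hQ hxx with rfl | rfl
    · by_cases hY : Yv P = 0
      · rw [two_torsion hP hY, hx_zero]
        linarith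
      · obtain ⟨-, h3⟩ := dbl_formula hP hY
        have h4 : psi W (xv P) ≠ 0 := by
          rw [← Yv_sq hP]
          exact pow_ne_zero 2 hY
        have h5 : xv (P + P) = phi W (xv P) / psi W (xv P) := by
          rw [eq_div_iff h4]
          exact h3
        have h6 := h2 (xv P)
        rw [← logHeight₁_div_eq_logHeight, ← h5] at h6
        unfold hx at *
        linarith
    · rw [neg_add_cancel, hx_zero]
      linarith
  · obtain ⟨-, h3⟩ := add_formula hP hQ hxx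
    have h4 : 2 * (xv P - xv Q) ^ 2 ≠ 0 :=
      mul_ne_zero two_ne_zero (pow_ne_zero 2 (sub_ne_zero.2 hxx))
    have h5 : xv (P + Q) = (AA W (xv P) (xv Q) - Yv P * Yv Q) / (2 * (xv P - xv Q) ^ 2) := by
      rw [eq_div_iff h4, ← h3]
      ring
    have h6 := h1 (xv P) (Yv P) (xv Q) (Yv Q) (Yv_sq hP) (Yv_sq hQ)
    rw [← logHeight₁_div_eq_logHeight, ← h5] at h6
    unfold hx at *
    linarith

end Pool.Agent.Helper85.EL
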